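import Mathlib
import Pool.Agent.H932R3.Finals

set_option autoImplicit false

/-!
# Effective line bundles with arbitrary multiplicities: relative error `n ^ (-k)`

For every `k` there is an `N` such that for `n ≥ N` general points of the complex projective plane,
arbitrary multiplicities `w i` and `d` in one of the two ranges below: if there is a nonzero form of
degree `d` with these multiplicities, the conditions are independent.
-/

namespace Pool.Agent.Results.MP_6ec8e4_ag.EffectiveEveryVector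

/-- The homogeneous ideal of the fat points with support `(P i 0 : P i 1 : 1)` and multiplicity
`w i`: the intersection of the `w i`-th powers of the ideals of the points. -/
noncomputable def fat {n : ℕ} (P : Fin n → Fin 2 → ℂ) (w : Fin n → ℕ) :
    Ideal (MvPolynomial (Fin 3) ℂ) :=
  ⨅ i : Fin n,
    (Ideal.span
      ({MvPolynomial.X 0 - MvPolynomial.C (P i 0) * MvPolynomial.X 2,
        MvPolynomial.X 1 - MvPolynomial.C (P i 1) * MvPolynomial.X 2} :
        Set (MvPolynomial (Fin 3) ℂ))) ^ (w i)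

theorem result (k : ℕ) : ∃ N : ℕ, ∀ n : ℕ, N ≤ n → ∀ w : Fin n → ℕ,
    ∃ F : MvPolynomial (Fin n × Fin 2) ℂ, F ≠ 0 ∧
      ∀ P : Fin n → Fin 2 → ℂ,
        MvPolynomial.eval (fun ij : Fin n × Fin 2 => P ij.1 ij.2) F ≠ 0 →
        ∀ d : ℕ, 0 < d →
          (Real.sqrt n * d ≤ (1 - 1 / (n : ℝ) ^ k) * ∑ i, (w i : ℝ) ∨
            ∀ i, (1 + 1 / (n : ℝ) ^ k) * (Real.sqrt n * w i) + Real.sqrt n ≤ d) →
          ∀ G : MvPolynomial (Fin 3) ℂ, G ≠ 0 → G.IsHomogeneous d → G ∈ fat P w →
          Module.finrank ℂ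
            ↥(MvPolynomial.homogeneousSubmodule (Fin 3) ℂ d ⊓
              Submodule.restrictScalars ℂ (fat P w))
            + ∑ i, Nat.choose (w i + 1) 2 = Nat.choose (d + 2) 2 := by
  obtain ⟨N, hN, h⟩ := H932R3.wedge_exp k
  refine ⟨N, fun n hn w => ?_⟩
  obtain ⟨F, hF, hF'⟩ := h ℂ n hn w
  refine ⟨F.map (algebraMap ℚ ℂ), H932R3.map_ne_zero_of hF,
    fun P hP d hd0 hd G hG hGd hGm => ?_⟩
  rw [MvPolynomial.eval_map] at hP
  have h3 := hF' P hP d hd0 hd
  unfold fat at hGm ⊢
  rw [Ideal.mem_iInf] at hGm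
  exact h3.eff hG hGd hGm

end Pool.Agent.Results.MP_6ec8e4_ag.EffectiveEveryVector
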