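import Mathlib
import Pool.Agent.H932R3.NearFinal
import Pool.Agent.H932R3.Finals

set_option autoImplicit false

/-!
# Effective line bundles with multiplicities differing by at most one

For `n > 9` general points of the complex projective plane with multiplicities `w i ∈ {m, m + 1}`,
where `m + 1 ≤ n - 6 √n + 11` (or the slightly weaker numerical condition below holds), and every
`d`: if there is a nonzero form of degree `d` with these multiplicities, the conditions are
independent.
-/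

namespace Pool.Agent.Results.MP_6ec8e4_ag.NearUniformEffective

/-- The homogeneous ideal of the fat points with support `(P i 0 : P i 1 : 1)` and multiplicity
`w i`: the intersection of the `w i`-th powers of the ideals of the points. -/
noncomputable def fat {n : ℕ} (P : Fin n → Fin 2 → ℂ) (w : Fin n → ℕ) :
    Ideal (MvPolynomial (Fin 3) ℂ) :=
  ⨅ i : Fin n,
    (Ideal.span
      ({MvPolynomial.X 0 - MvPolynomial.C (P i 0) * MvPolynomial.X 2,
        MvPolynomial.X 1 - MvPolynomial.C (P i 1) * MvPolynomial.X 2} :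
        Set (MvPolynomial (Fin 3) ℂ))) ^ (w i)

theorem result (n : ℕ) (hn : 9 < n) (m : ℕ) (hm : 0 < m) (w : Fin n → ℕ)
    (hw : ∀ i, w i = m ∨ w i = m + 1)
    (h : ((m + 1 : ℕ) : ℝ) ≤ n - 6 * Real.sqrt n + 11 ∨
      ∃ δ κ : ℕ, 2 ≤ δ ∧ n = δ ^ 2 + 2 * κ ∧
        (κ = 0 ∨ ∑ i, w i * (w i + 1) < δ ^ 2 * (δ ^ 2 + 3) * (δ ^ 2 + 4))) :
    ∃ F : MvPolynomial (Fin n × Fin 2) ℂ, F ≠ 0 ∧
      ∀ P : Fin n → Fin 2 → ℂ,
        MvPolynomial.eval (fun ij : Fin n × Fin 2 => P ij.1 ij.2) F ≠ 0 →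
        ∀ d : ℕ,
          ∀ G : MvPolynomial (Fin 3) ℂ, G ≠ 0 → G.IsHomogeneous d → G ∈ fat P w →
          Module.finrank ℂ
            ↥(MvPolynomial.homogeneousSubmodule (Fin 3) ℂ d ⊓
              Submodule.restrictScalars ℂ (fat P w))
            + ∑ i, Nat.choose (w i + 1) 2 = Nat.choose (d + 2) 2 := by
  obtain ⟨F, hF, hF'⟩ := H932R3.near_points (L := ℂ) (by omega) hm hw (H932R3.near_cond hn hw h)
  refine ⟨F.map (algebraMap ℚ ℂ), fun h0 => hF (MvPolynomial.map_injective (algebraMap ℚ ℂ)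
    (algebraMap ℚ ℂ).injective (by rw [h0, map_zero])), fun P hP d G hG hGd hGm => ?_⟩
  rw [MvPolynomial.eval_map] at hP
  have h3 : H932R3.ExpDim ℂ w P d := hF' P hP d
  unfold fat at hGm ⊢
  rw [Ideal.mem_iInf] at hGm
  exact h3.eff hG hGd hGm

end Pool.Agent.Results.MP_6ec8e4_ag.NearUniformEffective
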